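import Mathlib
import Pool.Agent.H34R2.Whitehead
import Pool.Agent.H34R2.GroupPerf
import Pool.Agent.H34R2.NoethGroupRing
import Pool.Agent.H34R2.AugIdem

/-!
# Projective modules over group rings of torsion-free polycyclic-by-finite groups

There is a torsion-free polycyclic-by-finite group `G` such that for every principal ideal domain
`k` there is a projective left `kG`-module which is not isomorphic to `F ⊕ I` with `F` free and `I`
a left ideal of `kG`.
-/

set_option autoImplicit false

namespace Pool.Agent.Results.MP_164b00_al.NotFreePlusIdeal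

universe u v

/-- A group is polycyclic if it has a subnormal series
`⊥ = H 0 ≤ H 1 ≤ ⋯ ≤ H n = ⊤` (each term normal in the next) with cyclic factors. -/
def IsPolycyclic (G : Type u) [Group G] : Prop :=
  ∃ (n : ℕ) (H : ℕ → Subgroup G), H 0 = ⊥ ∧ H n = ⊤ ∧
    ∀ i < n, H i ≤ H (i + 1) ∧ ∃ _ : ((H i).subgroupOf (H (i + 1))).Normal,
      IsCyclic (↥(H (i + 1)) ⧸ (H i).subgroupOf (H (i + 1)))

/-- A group is polycyclic-by-finite (almost polycyclic) if it has a polycyclic normal subgroup of
finite index. -/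
def IsPolycyclicByFinite (G : Type u) [Group G] : Prop :=
  ∃ M : Subgroup G, M.Normal ∧ M.FiniteIndex ∧ IsPolycyclic M

/-- Finitely generated abelian groups are polycyclic. -/
theorem isPolycyclic_of_comm (A : Type u) [CommGroup A] [hA : Group.FG A] : IsPolycyclic A := by
  obtain ⟨s, hs⟩ := hA.out
  let g : Fin s.card → A := fun i => (s.equivFin.symm i : A)
  have hg : Set.range g = (s : Set A) := by
    ext x
    constructor
    · rintro ⟨i, rfl⟩
      exact (s.equivFin.symm i).2
    · intro hx
      exact ⟨s.equivFin ⟨x, hx⟩, by simp [g]⟩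
  refine ⟨s.card, fun i => Subgroup.closure (g '' {j | (j : ℕ) < i}), ?_, ?_, ?_⟩
  · simp
  · have : {j : Fin s.card | (j : ℕ) < s.card} = Set.univ := by ext j; simp
    simp only [this, Set.image_univ, hg, hs]
  · intro i hi
    have hle : Subgroup.closure (g '' {j | (j : ℕ) < i}) ≤
        Subgroup.closure (g '' {j | (j : ℕ) < i + 1}) := by
      apply Subgroup.closure_mono
      apply Set.image_mono
      intro j (hj : (j : ℕ) < i)
      exact Nat.lt_succ_of_lt hj
    refine ⟨hle, inferInstance, ?_⟩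
    have hmem : g ⟨i, hi⟩ ∈ Subgroup.closure (g '' {j | (j : ℕ) < i + 1}) :=
      Subgroup.subset_closure ⟨⟨i, hi⟩, Nat.lt_succ_self i, rfl⟩
    have hsup : Subgroup.closure (g '' {j | (j : ℕ) < i + 1}) ≤
        Subgroup.closure (g '' {j | (j : ℕ) < i}) ⊔ Subgroup.zpowers (g ⟨i, hi⟩) := by
      rw [Subgroup.closure_le]
      rintro _ ⟨j, hj, rfl⟩
      rcases Nat.lt_succ_iff_lt_or_eq.1 hj with h | h
      · exact (le_sup_left : _ ≤ Subgroup.closure (g '' {j | (j : ℕ) < i}) ⊔
          Subgroup.zpowers (g ⟨i, hi⟩)) (Subgroup.subset_closure ⟨j, h, rfl⟩)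
      · have : j = ⟨i, hi⟩ := Fin.ext h
        rw [this]
        exact (le_sup_right : _ ≤ Subgroup.closure (g '' {j | (j : ℕ) < i}) ⊔
          Subgroup.zpowers (g ⟨i, hi⟩)) (Subgroup.mem_zpowers _)
    refine ⟨⟨QuotientGroup.mk ⟨g ⟨i, hi⟩, hmem⟩, fun x => ?_⟩⟩
    obtain ⟨⟨x, hx⟩, rfl⟩ := QuotientGroup.mk_surjective x
    obtain ⟨y, hy, z, hz, hyz⟩ := Subgroup.mem_sup.1 (hsup hx)
    obtain ⟨m, rfl⟩ := Subgroup.mem_zpowers_iff.1 hz
    refine ⟨m, ?_⟩
    change (QuotientGroup.mk _ : _ ⧸ _) ^ m = _
    rw [← QuotientGroup.mk_zpow, QuotientGroup.eq]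
    rw [Subgroup.mem_subgroupOf]
    have h2 : (g ⟨i, hi⟩ ^ m)⁻¹ * x = y := by
      rw [← hyz, mul_comm y, inv_mul_cancel_left]
    have h3 : (g ⟨i, hi⟩ ^ m)⁻¹ * x ∈ Subgroup.closure (g '' {j | (j : ℕ) < i}) := by
      rw [h2]; exact hy
    exact h3

open Pool.Agent.H34R2

theorem G_polycyclicByFinite : IsPolycyclicByFinite GroupPerf.G := by
  refine ⟨GroupPerf.B, inferInstance, inferInstance, ?_⟩
  let inst : CommGroup GroupPerf.B :=
    { (inferInstance : Group GroupPerf.B) with
      mul_comm := fun a b => Subtype.ext (GroupPerf.B_comm a.1 b.1 a.2 b.2) }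
  have : Group.FG GroupPerf.B := (Group.fg_iff_subgroup_fg _).2 GroupPerf.B_fg
  exact @isPolycyclic_of_comm GroupPerf.B inst this

/-- **Negative answer to Q1.** There is a torsion-free polycyclic-by-finite group `G` such that for
every principal ideal domain `k` some projective left `kG`-module `P` is not isomorphic to `F × I`
for any free `kG`-module `F` and any left ideal `I` of `kG`. -/
theorem result :
    ∃ (G : Type) (_ : Group G), (∀ g : G, IsOfFinOrder g → g = 1) ∧ IsPolycyclicByFinite G ∧
      ∀ (k : Type u) [CommRing k] [IsDomain k] [IsPrincipalIdealRing k],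
        ∃ (P : Type u) (_ : AddCommGroup P) (_ : Module (MonoidAlgebra k G) P),
          Module.Projective (MonoidAlgebra k G) P ∧
          ∀ (F : Type v) [AddCommGroup F] [Module (MonoidAlgebra k G) F],
            Module.Free (MonoidAlgebra k G) F →
            ∀ I : Submodule (MonoidAlgebra k G) (MonoidAlgebra k G),
              IsEmpty (P ≃ₗ[MonoidAlgebra k G] (F × I)) := by
  refine ⟨GroupPerf.G, inferInstance, ?_, G_polycyclicByFinite, ?_⟩
  · intro g hg
    rw [isOfFinOrder_iff_pow_eq_one] at hg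
    obtain ⟨n, hn, hgn⟩ := hg
    exact GroupPerf.G_torsionfree g n hn.ne' hgn
  · intro k _ _ _
    have : IsNoetherianRing (MonoidAlgebra k GroupPerf.G) :=
      NoethGroupRing.noetherian_virtually_abelian GroupPerf.B GroupPerf.B_fg
        (fun x hx y hy => GroupPerf.B_comm x y hx hy)
    have : Infinite GroupPerf.G := GroupPerf.G_infinite
    obtain ⟨s, hs⟩ := GroupPerf.G_fg.out
    let g : Fin s.card → GroupPerf.G := fun i => (s.equivFin.symm i : GroupPerf.G)
    have hg : Subgroup.closure (Set.range g) = ⊤ := by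
      rw [← hs]
      congr 1
      ext x
      constructor
      · rintro ⟨i, rfl⟩
        exact (s.equivFin.symm i).2
      · intro hx
        exact ⟨s.equivFin ⟨x, hx⟩, by simp [g]⟩
    obtain ⟨c, hc⟩ := AugIdem.exists_c (k := k) hg GroupPerf.G_perfect
    let t : Fin s.card → MonoidAlgebra k GroupPerf.G := fun l => AugIdem.d k (g l)
    refine ⟨Whitehead.WMod t, inferInstance, inferInstance, Whitehead.projective t c hc, ?_⟩
    intro F _ _ hF I
    refine ⟨fun e => ?_⟩
    exact Whitehead.main t (AugIdem.aug k GroupPerf.G) (fun l => AugIdem.aug_d _)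
      (fun x hx => AugIdem.eq_zero_of_mul hg x hx) hF I e

end Pool.Agent.Results.MP_164b00_al.NotFreePlusIdeal
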